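import Mathlib
import Pool.Agent.GenTop.FreeColoring

/-!
# Closing off under a finitary operation with countable values, and levels
-/

namespace Pool.Agent.H52EH

open Set Cardinal

universe u

variable {V : Type u}

/-- stages of the closure of a set under a finitary set-valued operation -/
def stage (op : Finset V → Set V) (X : Set V) : ℕ → Set V
  | 0 => X
  | k + 1 => stage op X k ∪ ⋃ F : {F : Finset V // ↑F ⊆ stage op X k}, op F.1

/-- closure of a set under a finitary set-valued operation -/
def cl (op : Finset V → Set V) (X : Set V) : Set V := ⋃ k, stage op X k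

variable {op : Finset V → Set V}

lemma stage_mono (X : Set V) {k l : ℕ} (h : k ≤ l) : stage op X k ⊆ stage op X l := by
  induction h with
  | refl => exact subset_rfl
  | step _ ih => exact ih.trans subset_union_left

lemma subset_cl (X : Set V) : X ⊆ cl op X := subset_iUnion (stage op X) 0

lemma cl_closed (X : Set V) {F : Finset V} (hF : ↑F ⊆ cl op X) : op F ⊆ cl op X := by
  classical
  have h : ∃ k, ↑F ⊆ stage op X k := by
    induction F using Finset.induction with
    | empty => exact ⟨0, by simp⟩
    | insert a F ha ih =>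
      rw [Finset.coe_insert, insert_subset_iff] at hF
      obtain ⟨k, hk⟩ := ih hF.2
      obtain ⟨l, hl⟩ := mem_iUnion.1 hF.1
      refine ⟨max k l, ?_⟩
      rw [Finset.coe_insert, insert_subset_iff]
      exact ⟨stage_mono X (le_max_right _ _) hl, hk.trans (stage_mono X (le_max_left _ _))⟩
  obtain ⟨k, hk⟩ := h
  refine subset_trans ?_ (subset_iUnion _ (k + 1))
  exact (subset_iUnion (fun F : {F : Finset V // ↑F ⊆ stage op X k} => op F.1) ⟨F, hk⟩).trans
    subset_union_right

lemma stage_subset {X Y : Set V} (h : X ⊆ Y) (k : ℕ) : stage op X k ⊆ stage op Y k := by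
  induction k with
  | zero => exact h
  | succ k ih =>
    refine union_subset_union ih ?_
    refine iUnion_subset fun F => ?_
    exact subset_iUnion (fun F : {F : Finset V // ↑F ⊆ stage op Y k} => op F.1)
      ⟨F.1, F.2.trans ih⟩

lemma cl_mono {X Y : Set V} (h : X ⊆ Y) : cl op X ⊆ cl op Y :=
  iUnion_mono fun k => stage_subset h k

lemma mk_cl_le (hop : ∀ F, (op F).Countable) (X : Set V) : #(cl op X) ≤ max #X ℵ₀ := by
  set κ := max #X ℵ₀ with hκ
  have hκ0 : ℵ₀ ≤ κ := le_max_right _ _
  have hstage : ∀ k, #(stage op X k) ≤ κ := by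
    intro k
    induction k with
    | zero => exact le_max_left _ _
    | succ k ih =>
      have h1 : #{F : Finset V // ↑F ⊆ stage op X k} ≤ κ := by
        have h2 : #{F : Finset V // ↑F ⊆ stage op X k} ≤ #(Finset (stage op X k)) := by
          classical
          refine mk_le_of_injective (f := fun F => F.1.subtype (· ∈ stage op X k)) ?_
          intro F G hFG
          apply Subtype.ext
          have h3 : ∀ (F : {F : Finset V // ↑F ⊆ stage op X k}),
              (F.1.subtype (· ∈ stage op X k)).map (Function.Embedding.subtype _) = F.1 := by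
            intro F
            rw [Finset.subtype_map, Finset.filter_eq_self]
            intro x hx
            exact F.2 hx
          have hFG' : F.1.subtype (· ∈ stage op X k) = G.1.subtype (· ∈ stage op X k) := hFG
          rw [← h3 F, ← h3 G, hFG']
        refine h2.trans ?_
        rcases finite_or_infinite (stage op X k) with hfin | hinf
        · have : Finite (Finset (stage op X k)) := inferInstance
          exact (lt_aleph0_of_finite _).le.trans hκ0
        · rw [mk_finset_of_infinite]
          exact ih
      have h4 : #(⋃ F : {F : Finset V // ↑F ⊆ stage op X k}, op F.1) ≤ κ := by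
        refine (mk_iUnion_le _).trans ?_
        have h5 : (⨆ F : {F : Finset V // ↑F ⊆ stage op X k}, #(op F.1)) ≤ ℵ₀ :=
          ciSup_le' fun F => le_aleph0_iff_set_countable.2 (hop F.1)
        refine (mul_le_mul' h1 h5).trans ?_
        rw [mul_aleph0_eq hκ0]
      exact (mk_union_le _ _).trans ((add_le_add ih h4).trans (add_eq_self hκ0).le)
  have h := mk_iUnion_le_lift (stage op X)
  rw [lift_uzero] at h
  refine h.trans ?_
  have h6 : (⨆ k, lift.{0} #(stage op X k)) ≤ κ := ciSup_le' fun k => by
    rw [lift_uzero]
    exact hstage k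
  have h7 : lift.{u, 0} #ℕ = ℵ₀ := by simp
  rw [h7]
  refine (mul_le_mul' le_rfl h6).trans ?_
  rw [aleph0_mul_eq hκ0]

/-- **Levels.** Let `V` be uncountable and `op` a finitary operation with countable values,
`op ∅ = ∅`. Then `V` has a level function into a linear order such that every level has fewer
elements than `V`, and the elements of lower level than `x` are contained in a set which is closed
under `op` and does not contain `x`. -/
theorem exists_levels (hop : ∀ F, (op F).Countable) (hempty : op ∅ = ∅) (hV : ℵ₀ < #V) :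
    ∃ (ι : Type u) (_ : LinearOrder ι) (lev : V → ι),
      (∀ i, #{x | lev x = i} < #V) ∧
      ∀ x, ∃ M : Set V, (∀ F : Finset V, ↑F ⊆ M → op F ⊆ M) ∧ x ∉ M ∧
        ∀ y, lev y < lev x → y ∈ M := by
  classical
  let ι : Type u := (#V).ord.ToType
  have hι : #ι = #V := by simp [ι]
  obtain ⟨e⟩ : Nonempty (ι ≃ V) := Cardinal.eq.1 hι
  let X : ι → Set V := fun i => e '' Iic i
  have hXmono : ∀ i j, i ≤ j → X i ⊆ X j := fun i j h => image_mono (Iic_subset_Iic.2 h)
  have hex : ∀ x : V, ∃ i, x ∈ cl op (X i) := fun x =>
    ⟨e.symm x, subset_cl _ ⟨e.symm x, by simp, by simp⟩⟩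
  let lev : V → ι := fun x => WellFounded.min (wellFounded_lt (α := ι)) {i | x ∈ cl op (X i)} (hex x)
  have hlev : ∀ x, x ∈ cl op (X (lev x)) := fun x =>
    WellFounded.min_mem (wellFounded_lt (α := ι)) {i | x ∈ cl op (X i)} (hex x)
  have hlev' : ∀ x i, x ∈ cl op (X i) → lev x ≤ i := fun x i hi =>
    not_lt.1 (WellFounded.not_lt_min (wellFounded_lt (α := ι)) {i | x ∈ cl op (X i)} hi)
  refine ⟨ι, inferInstance, lev, ?_, ?_⟩
  · intro i
    have h1 : {x | lev x = i} ⊆ cl op (X i) := by
      rintro x rfl
      exact hlev x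
    refine (mk_le_mk_of_subset h1).trans_lt ((mk_cl_le hop _).trans_lt (max_lt ?_ hV))
    refine mk_image_le.trans_lt ?_
    have h2 : #(Iio i) < #V := by simpa [ι] using mk_Iio_lt i
    have h3 : #(Iic i) ≤ #(Iio i) + 1 := by
      rw [← Iio_insert]
      exact mk_insert_le
    refine h3.trans_lt (add_lt_of_lt hV.le h2 ?_)
    exact (one_lt_aleph0).trans hV
  · intro x
    refine ⟨⋃ j : {j // j < lev x}, cl op (X j.1), ?_, ?_, ?_⟩
    · intro F hF
      rcases F.eq_empty_or_nonempty with rfl | hne
      · rw [hempty]
        exact empty_subset _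
      · have h1 : ∀ y ∈ F, ∃ j, j < lev x ∧ y ∈ cl op (X j) := by
          intro y hy
          obtain ⟨j, hj⟩ := mem_iUnion.1 (hF hy)
          exact ⟨j.1, j.2, hj⟩
        have : Nonempty ι := ⟨lev x⟩
        choose! f hf1 hf2 using h1
        have h2 : F.sup' hne f < lev x := by
          rw [Finset.sup'_lt_iff]
          exact hf1
        refine subset_trans (cl_closed (X (F.sup' hne f)) ?_)
          (subset_iUnion (fun j : {j // j < lev x} => cl op (X j.1)) ⟨_, h2⟩)
        intro y hy
        exact cl_mono (hXmono _ _ (Finset.le_sup' f hy)) (hf2 y hy)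
    · intro hx
      obtain ⟨j, hj⟩ := mem_iUnion.1 hx
      exact absurd j.2 (not_lt.2 (hlev' x j.1 hj))
    · intro y hy
      exact mem_iUnion.2 ⟨⟨lev y, hy⟩, hlev y⟩

end Pool.Agent.H52EH
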