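import Pool.Agent.H52EH.Levels

/-!
# Countable chromatic number and countable unions of triangle-free graphs
-/

namespace Pool.Agent.H52EH

open Set Cardinal

universe u

/-- Erdős-Hajnal: a graph in which every `n`-set has only countably many common neighbours has
countable chromatic number. -/
theorem exists_coloring (n : ℕ) : ∀ (V : Type u) (G : SimpleGraph V),
    (∀ F : Finset V, F.card = n → {x | ∀ y ∈ F, G.Adj x y}.Countable) →
    ∃ c : V → ℕ, ∀ x y, G.Adj x y → c x ≠ c y := by
  suffices H : ∀ (κ : Cardinal.{u}) (V : Type u), #V = κ → ∀ (G : SimpleGraph V),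
      (∀ F : Finset V, F.card = n → {x | ∀ y ∈ F, G.Adj x y}.Countable) →
      ∃ c : V → ℕ, ∀ x y, G.Adj x y → c x ≠ c y from fun V => H #V V rfl
  intro κ
  induction κ using WellFoundedLT.induction with
  | ind κ ih =>
  intro V hV G hG
  rcases le_or_gt #V ℵ₀ with hc | hc
  · have : Countable V := mk_le_aleph0_iff.1 hc
    obtain ⟨f, hf⟩ := exists_injective_nat V
    exact ⟨f, fun x y h he => G.ne_of_adj h (hf he)⟩
  classical
  rcases Nat.eq_zero_or_pos n with rfl | hn
  · -- every vertex set is countable: contradiction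
    have h := hG ∅ rfl
    have h2 : {x : V | ∀ y ∈ (∅ : Finset V), G.Adj x y} = Set.univ := by ext; simp
    rw [h2] at h
    have := le_aleph0_iff_set_countable.2 h
    rw [mk_univ] at this
    exact absurd this (not_le.2 hc)
  let op : Finset V → Set V := fun F => if F.card = n then {x | ∀ y ∈ F, G.Adj x y} else ∅
  have hop : ∀ F, (op F).Countable := by
    intro F
    by_cases h : F.card = n
    · simp only [op, h, if_true]
      exact hG F h
    · simp only [op, h, if_false]
      exact countable_empty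
  have hempty : op ∅ = ∅ := if_neg (by rw [Finset.card_empty]; omega)
  obtain ⟨ι, _, lev, hlev, hM⟩ := exists_levels hop hempty hc
  -- lower neighbours
  let f : V → Set V := fun x => {y | G.Adj x y ∧ lev y < lev x}
  have hf : ∀ x, (f x).Finite := by
    intro x
    obtain ⟨M, hM1, hM2, hM3⟩ := hM x
    by_contra hinf
    obtain ⟨F, hF, hFn⟩ := Set.Infinite.exists_subset_card_eq hinf n
    apply hM2
    have h1 : x ∈ op F := by
      simp only [op, hFn, if_true]
      intro y hy
      exact (hF hy).1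
    exact hM1 F (fun y hy => hM3 y (hF hy).2) h1
  obtain ⟨c₁, hc₁⟩ := Pool.Agent.GenTop.exists_free_coloring f hf
  -- colourings of the levels
  have hlevel : ∀ i : ι, ∃ c : {x // lev x = i} → ℕ, ∀ x y, G.Adj x.1 y.1 → c x ≠ c y := by
    intro i
    have hlt : #{x // lev x = i} < κ := hV ▸ hlev i
    obtain ⟨c, hc⟩ := ih _ hlt {x // lev x = i} rfl (G.comap Subtype.val) (by
      intro F hF
      have h1 := hG (F.map (Function.Embedding.subtype _)) (by rw [Finset.card_map, hF])
      refine (h1.preimage (Subtype.val_injective (p := fun x => lev x = i))).mono ?_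
      intro x hx
      simp only [mem_preimage, mem_ofPred_eq, Finset.mem_map, Function.Embedding.coe_subtype]
      rintro y ⟨z, hz, rfl⟩
      exact hx z hz)
    exact ⟨c, fun x y hxy => hc x y hxy⟩
  choose c₂ hc₂ using hlevel
  refine ⟨fun x => Nat.pair (c₁ x) (c₂ (lev x) ⟨x, rfl⟩), ?_⟩
  have key : ∀ x y, G.Adj x y → lev y ≤ lev x →
      Nat.pair (c₁ x) (c₂ (lev x) ⟨x, rfl⟩) ≠ Nat.pair (c₁ y) (c₂ (lev y) ⟨y, rfl⟩) := by
    intro x y hxy hle he
    rw [Nat.pair_eq_pair] at he
    rcases hle.lt_or_eq with hlt | heq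
    · exact hc₁ x y ⟨hxy, hlt⟩ (G.ne_of_adj hxy).symm he.1.symm
    · have h1 : ∀ (i : ι) (h : lev y = i), c₂ (lev y) ⟨y, rfl⟩ = c₂ i ⟨y, h⟩ := by
        rintro _ rfl
        rfl
      rw [h1 _ heq] at he
      exact hc₂ (lev x) ⟨x, rfl⟩ ⟨y, heq⟩ hxy he.2
  intro x y hxy
  rcases le_total (lev y) (lev x) with h | h
  · exact key x y hxy h
  · exact (key y x hxy.symm h).symm

/-- The edges of `G` can be coloured with natural numbers without a monochromatic triangle. -/
def TriColorable {V : Type u} (G : SimpleGraph V) : Prop :=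
  ∃ c : V → V → ℕ, (∀ x y, c x y = c y x) ∧
    ∀ x y z, G.Adj x y → G.Adj y z → G.Adj x z → ¬(c x y = c y z ∧ c y z = c x z)

/-- A graph without a complete tripartite subgraph `K_{n,n,ω₁}` is a countable union of
triangle-free graphs. -/
theorem exists_triColoring (n : ℕ) : ∀ (V : Type u) (G : SimpleGraph V),
    (∀ A B : Finset V, A.card = n → B.card = n → (∀ a ∈ A, ∀ b ∈ B, G.Adj a b) →
      {x | (∀ y ∈ A, G.Adj x y) ∧ ∀ y ∈ B, G.Adj x y}.Countable) → TriColorable G := by
  suffices H : ∀ (κ : Cardinal.{u}) (V : Type u), #V = κ → ∀ (G : SimpleGraph V),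
      (∀ A B : Finset V, A.card = n → B.card = n → (∀ a ∈ A, ∀ b ∈ B, G.Adj a b) →
      {x | (∀ y ∈ A, G.Adj x y) ∧ ∀ y ∈ B, G.Adj x y}.Countable) → TriColorable G from
    fun V => H #V V rfl
  intro κ
  induction κ using WellFoundedLT.induction with
  | ind κ ih =>
  intro V hV G hG
  classical
  rcases le_or_gt #V ℵ₀ with hc | hc
  · -- countable vertex set: stars
    have : Countable V := mk_le_aleph0_iff.1 hc
    obtain ⟨f, hf⟩ := exists_injective_nat V
    refine ⟨fun x y => min (f x) (f y), fun x y => min_comm _ _, ?_⟩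
    rintro x y z hxy hyz hxz ⟨h1, h2⟩
    have nxy : f x ≠ f y := fun h => G.ne_of_adj hxy (hf h)
    have nyz : f y ≠ f z := fun h => G.ne_of_adj hyz (hf h)
    have nxz : f x ≠ f z := fun h => G.ne_of_adj hxz (hf h)
    change min (f x) (f y) = min (f y) (f z) at h1
    change min (f y) (f z) = min (f x) (f z) at h2
    omega
  rcases Nat.eq_zero_or_pos n with rfl | hn
  · have h := hG ∅ ∅ rfl rfl (by simp)
    have h2 : {x : V | (∀ y ∈ (∅ : Finset V), G.Adj x y) ∧ ∀ y ∈ (∅ : Finset V), G.Adj x y} =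
        Set.univ := by ext; simp
    rw [h2] at h
    have := le_aleph0_iff_set_countable.2 h
    rw [mk_univ] at this
    exact absurd this (not_le.2 hc)
  -- the closing operation
  let op : Finset V → Set V := fun F => ⋃ A : {A : Finset V × Finset V // A.1 ⊆ F ∧ A.2 ⊆ F ∧
    A.1.card = n ∧ A.2.card = n ∧ (∀ a ∈ A.1, ∀ b ∈ A.2, G.Adj a b)},
    {x | (∀ y ∈ A.1.1, G.Adj x y) ∧ ∀ y ∈ A.1.2, G.Adj x y}
  have hop : ∀ F, (op F).Countable := by
    intro F
    have hfin : Finite {A : Finset V × Finset V // A.1 ⊆ F ∧ A.2 ⊆ F ∧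
        A.1.card = n ∧ A.2.card = n ∧ (∀ a ∈ A.1, ∀ b ∈ A.2, G.Adj a b)} := by
      refine Set.Finite.to_subtype (((F.powerset ×ˢ F.powerset).finite_toSet).subset ?_)
      rintro ⟨A, B⟩ h
      simp only [Finset.coe_product, Set.mem_prod, Finset.mem_coe, Finset.mem_powerset]
      exact ⟨h.1, h.2.1⟩
    exact countable_iUnion fun A => hG A.1.1 A.1.2 A.2.2.2.1 A.2.2.2.2.1 A.2.2.2.2.2
  have hempty : op ∅ = ∅ := by
    simp only [op, iUnion_eq_empty]
    rintro ⟨⟨A, B⟩, h⟩
    exfalso
    have h1 : A = ∅ := Finset.subset_empty.1 h.1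
    have h2 := h.2.2.1
    simp only [h1, Finset.card_empty] at h2
    omega
  obtain ⟨ι, _, lev, hlev, hM⟩ := exists_levels hop hempty hc
  -- colouring of the lower neighbourhood of `x`
  have hlow : ∀ x : V, ∃ φ : V → ℕ, ∀ y z, G.Adj x y → G.Adj x z → G.Adj y z →
      lev y < lev x → lev z < lev x → φ y ≠ φ z := by
    intro x
    obtain ⟨M, hM1, hM2, hM3⟩ := hM x
    let S : Set V := {y | G.Adj x y ∧ lev y < lev x}
    obtain ⟨c, hcc⟩ := exists_coloring n S (G.comap Subtype.val) (by
      intro F hF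
      -- fewer than `n` common neighbours
      refine Set.Finite.countable ?_
      by_contra hinf
      obtain ⟨B, hB, hBn⟩ := Set.Infinite.exists_subset_card_eq hinf n
      apply hM2
      let A' : Finset V := F.map (Function.Embedding.subtype _)
      let B' : Finset V := B.map (Function.Embedding.subtype _)
      have hA' : ∀ y ∈ A', G.Adj x y ∧ lev y < lev x := by
        intro y hy
        obtain ⟨z, hz, rfl⟩ := Finset.mem_map.1 hy
        exact z.2
      have hB' : ∀ y ∈ B', G.Adj x y ∧ lev y < lev x := by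
        intro y hy
        obtain ⟨z, hz, rfl⟩ := Finset.mem_map.1 hy
        exact z.2
      have hAB : ∀ a ∈ A', ∀ b ∈ B', G.Adj a b := by
        intro a ha b hb
        obtain ⟨a', ha', rfl⟩ := Finset.mem_map.1 ha
        obtain ⟨b', hb', rfl⟩ := Finset.mem_map.1 hb
        exact (hB hb' a' ha').symm
      have h1 : x ∈ op (A' ∪ B') := by
        refine mem_iUnion.2 ⟨⟨(A', B'), Finset.subset_union_left, Finset.subset_union_right,
          by simp [A', hF], by simp [B', hBn], hAB⟩, ?_⟩
        exact ⟨fun y hy => (hA' y hy).1, fun y hy => (hB' y hy).1⟩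
      refine hM1 (A' ∪ B') ?_ h1
      intro y hy
      rw [Finset.mem_coe, Finset.mem_union] at hy
      rcases hy with hy | hy
      · exact hM3 y (hA' y hy).2
      · exact hM3 y (hB' y hy).2)
    refine ⟨fun y => if h : y ∈ S then c ⟨y, h⟩ else 0, ?_⟩
    intro y z hxy hxz hyz hy hz
    have h1 : y ∈ S := ⟨hxy, hy⟩
    have h2 : z ∈ S := ⟨hxz, hz⟩
    simp only [h1, h2, dif_pos]
    exact hcc ⟨y, h1⟩ ⟨z, h2⟩ hyz
  choose φ hφ using hlow
  -- colourings inside the levels
  have hlevel : ∀ i : ι, ∃ c : V → V → ℕ, (∀ x y, c x y = c y x) ∧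
      ∀ x y z, lev x = i → lev y = i → lev z = i → G.Adj x y → G.Adj y z → G.Adj x z →
        ¬(c x y = c y z ∧ c y z = c x z) := by
    intro i
    have hlt : #{x // lev x = i} < κ := hV ▸ hlev i
    obtain ⟨c, hc1, hc2⟩ := ih _ hlt {x // lev x = i} rfl (G.comap Subtype.val) (by
      intro A B hA hB hAB
      have h1 := hG (A.map (Function.Embedding.subtype _)) (B.map (Function.Embedding.subtype _))
        (by rw [Finset.card_map, hA]) (by rw [Finset.card_map, hB]) (by
          intro a ha b hb
          obtain ⟨a', ha', rfl⟩ := Finset.mem_map.1 ha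
          obtain ⟨b', hb', rfl⟩ := Finset.mem_map.1 hb
          exact hAB a' ha' b' hb')
      refine (h1.preimage (Subtype.val_injective (p := fun x => lev x = i))).mono ?_
      intro x hx
      refine ⟨?_, ?_⟩
      · intro y hy
        obtain ⟨z, hz, rfl⟩ := Finset.mem_map.1 hy
        exact hx.1 z hz
      · intro y hy
        obtain ⟨z, hz, rfl⟩ := Finset.mem_map.1 hy
        exact hx.2 z hz)
    refine ⟨fun x y => if h : lev x = i ∧ lev y = i then c ⟨x, h.1⟩ ⟨y, h.2⟩ else 0, ?_, ?_⟩
    · intro x y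
      by_cases h : lev x = i ∧ lev y = i
      · simp only [h, and_self, dif_pos]
        exact hc1 _ _
      · have h' : ¬(lev y = i ∧ lev x = i) := fun h' => h h'.symm
        simp only [h, h', dif_neg, not_false_iff]
    · intro x y z hx hy hz hxy hyz hxz
      have h1 : lev x = i ∧ lev y = i := ⟨hx, hy⟩
      have h2 : lev y = i ∧ lev z = i := ⟨hy, hz⟩
      simp only [h1, h2]
      exact hc2 ⟨x, hx⟩ ⟨y, hy⟩ ⟨z, hz⟩ hxy hyz hxz
  choose c hc1 hc2 using hlevel
  -- the colouring
  let col : V → V → ℕ := fun x y =>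
    if lev x = lev y then 2 * c (lev x) x y
    else if lev y < lev x then 2 * φ x y + 1 else 2 * φ y x + 1
  have hsymm : ∀ x y, col x y = col y x := by
    intro x y
    simp only [col]
    rcases lt_trichotomy (lev x) (lev y) with h | h | h
    · simp [h, h.ne, h.ne', not_lt.2 h.le]
    · simp [h, hc1 _ x y]
    · simp [h, h.ne, h.ne', not_lt.2 h.le]
  -- even colours occur exactly inside levels
  have heven : ∀ x y, lev x = lev y → col x y = 2 * c (lev x) x y := by
    intro x y h
    simp [col, h]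
  have hodd : ∀ x y, lev y < lev x → col x y = 2 * φ x y + 1 := by
    intro x y h
    simp [col, h, h.ne']
  refine ⟨col, hsymm, ?_⟩
  -- triangle with a unique top vertex
  have top1 : ∀ x y z, lev y < lev x → lev z < lev x → G.Adj x y → G.Adj x z → G.Adj y z →
      col x y ≠ col x z := by
    intro x y z hy hz hxy hxz hyz
    rw [hodd x y hy, hodd x z hz]
    have := hφ x y z hxy hxz hyz hy hz
    omega
  -- two top vertices
  have top2 : ∀ x y z, lev x = lev y → lev z < lev x → col x y ≠ col x z := by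
    intro x y z hxy hz
    rw [heven x y hxy, hodd x z hz]
    omega
  rintro x y z hxy hyz hxz ⟨h1, h2⟩
  have h3 : col x y = col x z := h1.trans h2
  have h1' : col y x = col y z := by rw [hsymm y x]; exact h1
  have h2' : col z y = col z x := by rw [hsymm z y, hsymm z x]; exact h2
  rcases lt_trichotomy (lev x) (lev y) with hxy' | hxy' | hxy'
  · rcases lt_trichotomy (lev y) (lev z) with hyz' | hyz' | hyz'
    · exact top1 z y x hyz' (hxy'.trans hyz') hyz.symm hxz.symm hxy.symm h2'
    · exact top2 y z x hyz' hxy' h1'.symm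
    · exact top1 y x z hxy' hyz' hxy.symm hyz hxz h1'
  · rcases lt_trichotomy (lev y) (lev z) with hyz' | hyz' | hyz'
    · exact top1 z y x hyz' (hxy' ▸ hyz') hyz.symm hxz.symm hxy.symm h2'
    · refine hc2 (lev x) x y z rfl hxy'.symm (hxy'.trans hyz').symm hxy hyz hxz ?_
      rw [heven x y hxy', heven y z hyz', ← hxy'] at h1
      rw [heven y z hyz', heven x z (hxy'.trans hyz'), ← hxy'] at h2
      exact ⟨by omega, by omega⟩
    · exact top2 x y z hxy' (hxy' ▸ hyz') h3
  · rcases lt_trichotomy (lev x) (lev z) with hxz' | hxz' | hxz'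
    · exact top1 z y x (hxy'.trans hxz') hxz' hyz.symm hxz.symm hxy.symm h2'
    · exact top2 x z y hxz' hxy' h3.symm
    · exact top1 x y z hxy' hxz' hxy hxz hyz h3

end Pool.Agent.H52EH
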